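import Mathlib

set_option autoImplicit false

open scoped TensorProduct

namespace Pool.Agent.Results.MP_25d2c4_an.SymInjectiveASQ

universe u v

/-- Almost squareness of a normed space: for every finite set of norm-one vectors and every
`ε > 0` there is a norm-one vector `y` with `‖x + y‖ ≤ 1 + ε` for all `x` in the set. -/
def IsASQ (X : Type v) [NormedAddCommGroup X] : Prop :=
  ∀ s : Finset X, (∀ x ∈ s, ‖x‖ = 1) → ∀ ε : ℝ, 0 < ε → ∃ y : X, ‖y‖ = 1 ∧ ∀ x ∈ s, ‖x + y‖ ≤ 1 + ε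

section defs

variable (𝕜 : Type u) [RCLike 𝕜] (X : Type v) [NormedAddCommGroup X] [NormedSpace 𝕜 X] (N : ℕ)

/-- The subspace of the `N`-fold algebraic tensor power spanned by the elements
`x ⊗ ⋯ ⊗ x`. -/
def symSubmodule : Submodule 𝕜 (⨂[𝕜] _ : Fin N, X) :=
  Submodule.span 𝕜 (Set.range fun x : X => PiTensorProduct.tprod 𝕜 (fun _ : Fin N => x))

/-- The symmetric algebraic tensor power, as a type of its own (so that it carries none of the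
norms of Mathlib on tensor products). -/
def SymPow : Type (max u v) := ↥(symSubmodule 𝕜 X N)

noncomputable instance : AddCommGroup (SymPow 𝕜 X N) := (symSubmodule 𝕜 X N).addCommGroup

noncomputable instance : Module 𝕜 (SymPow 𝕜 X N) := (symSubmodule 𝕜 X N).module

variable {X}

/-- The functional `φ ⊗ ⋯ ⊗ φ` on the `N`-fold algebraic tensor power. -/
noncomputable def powEval (φ : X →L[𝕜] 𝕜) : (⨂[𝕜] _ : Fin N, X) →ₗ[𝕜] 𝕜 :=
  PiTensorProduct.lift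
    ((MultilinearMap.mkPiAlgebra 𝕜 (Fin N) 𝕜).compLinearMap (fun _ => (φ : X →ₗ[𝕜] 𝕜)))

/-- The functional `φ ⊗ ⋯ ⊗ φ` on the symmetric tensor power. -/
noncomputable def symEval (φ : X →L[𝕜] 𝕜) : SymPow 𝕜 X N →ₗ[𝕜] 𝕜 :=
  (powEval 𝕜 N φ).comp (symSubmodule 𝕜 X N).subtype

/-- The symmetric injective norm: the supremum of `|⟨φ ⊗ ⋯ ⊗ φ, u⟩|` over `‖φ‖ ≤ 1`. -/
noncomputable def symNorm (u : SymPow 𝕜 X N) : ℝ :=
  ⨆ φ : {φ : X →L[𝕜] 𝕜 // ‖φ‖ ≤ 1}, ‖symEval 𝕜 N φ.1 u‖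

end defs

section basic

variable {𝕜 : Type u} [RCLike 𝕜] {X : Type v} [NormedAddCommGroup X] [NormedSpace 𝕜 X] {N : ℕ}

/-- The element `x ⊗ ⋯ ⊗ x`. -/
noncomputable def pure (𝕜 : Type u) [RCLike 𝕜] {X : Type v} [NormedAddCommGroup X]
    [NormedSpace 𝕜 X] (N : ℕ) (x : X) : SymPow 𝕜 X N :=
  (⟨PiTensorProduct.tprod 𝕜 (fun _ : Fin N => x), Submodule.subset_span ⟨x, rfl⟩⟩ :
    ↥(symSubmodule 𝕜 X N))

lemma symEval_pure (φ : X →L[𝕜] 𝕜) (x : X) : symEval 𝕜 N φ (pure 𝕜 N x) = φ x ^ N := by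
  show powEval 𝕜 N φ (PiTensorProduct.tprod 𝕜 (fun _ : Fin N => x)) = φ x ^ N
  unfold powEval
  rw [PiTensorProduct.lift.tprod]
  simp [MultilinearMap.mkPiAlgebra_apply]

lemma induction_pure {p : SymPow 𝕜 X N → Prop} (hp : ∀ x, p (pure 𝕜 N x)) (h0 : p 0)
    (hadd : ∀ a b, p a → p b → p (a + b)) (hsmul : ∀ (c : 𝕜) a, p a → p (c • a))
    (u : SymPow 𝕜 X N) : p u := by
  have key : ∀ (w : ⨂[𝕜] _ : Fin N, X) (hw : w ∈ symSubmodule 𝕜 X N), p (⟨w, hw⟩ :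
      ↥(symSubmodule 𝕜 X N)) := by
    intro w hw
    induction hw using Submodule.span_induction with
    | mem w hw =>
      obtain ⟨x, rfl⟩ := hw
      exact hp x
    | zero => exact h0
    | add a b ha hb iha ihb => exact hadd _ _ iha ihb
    | smul c a ha iha => exact hsmul c _ iha
  exact key u.1 u.2

lemma bdd (u : SymPow 𝕜 X N) :
    ∃ C : ℝ, ∀ φ : X →L[𝕜] 𝕜, ‖φ‖ ≤ 1 → ‖symEval 𝕜 N φ u‖ ≤ C := by
  refine induction_pure (p := fun u => ∃ C : ℝ, ∀ φ : X →L[𝕜] 𝕜, ‖φ‖ ≤ 1 →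
    ‖symEval 𝕜 N φ u‖ ≤ C) ?_ ?_ ?_ ?_ u
  · intro x
    refine ⟨‖x‖ ^ N, fun φ hφ => ?_⟩
    rw [symEval_pure, norm_pow]
    refine pow_le_pow_left₀ (norm_nonneg _) ?_ N
    calc ‖φ x‖ ≤ ‖φ‖ * ‖x‖ := φ.le_opNorm x
      _ ≤ 1 * ‖x‖ := mul_le_mul_of_nonneg_right hφ (norm_nonneg _)
      _ = ‖x‖ := one_mul _
  · exact ⟨0, fun φ _ => by simp⟩
  · rintro a b ⟨C, hC⟩ ⟨D, hD⟩
    refine ⟨C + D, fun φ hφ => ?_⟩
    rw [map_add]
    exact (norm_add_le _ _).trans (add_le_add (hC φ hφ) (hD φ hφ))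
  · rintro c a ⟨C, hC⟩
    refine ⟨‖c‖ * C, fun φ hφ => ?_⟩
    rw [map_smul, norm_smul]
    exact mul_le_mul_of_nonneg_left (hC φ hφ) (norm_nonneg _)

lemma bddAbove (u : SymPow 𝕜 X N) :
    BddAbove (Set.range fun φ : {φ : X →L[𝕜] 𝕜 // ‖φ‖ ≤ 1} => ‖symEval 𝕜 N φ.1 u‖) := by
  obtain ⟨C, hC⟩ := bdd u
  refine ⟨C, ?_⟩
  rintro _ ⟨φ, rfl⟩
  exact hC φ.1 φ.2

lemma le_symNorm (u : SymPow 𝕜 X N) (φ : X →L[𝕜] 𝕜) (hφ : ‖φ‖ ≤ 1) :
    ‖symEval 𝕜 N φ u‖ ≤ symNorm 𝕜 N u :=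
  le_ciSup (bddAbove u) ⟨φ, hφ⟩

lemma symNorm_le (u : SymPow 𝕜 X N) (C : ℝ) (h : ∀ φ : X →L[𝕜] 𝕜, ‖φ‖ ≤ 1 →
    ‖symEval 𝕜 N φ u‖ ≤ C) : symNorm 𝕜 N u ≤ C := by
  have : Nonempty {φ : X →L[𝕜] 𝕜 // ‖φ‖ ≤ 1} := ⟨⟨0, by simp⟩⟩
  exact ciSup_le fun φ => h φ.1 φ.2

lemma symNorm_nonneg (u : SymPow 𝕜 X N) : 0 ≤ symNorm 𝕜 N u :=
  (norm_nonneg _).trans (le_symNorm u 0 (by simp))

/-- The symmetric injective norm as a seminorm. -/
noncomputable def symSeminorm (𝕜 : Type u) [RCLike 𝕜] (X : Type v) [NormedAddCommGroup X]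
    [NormedSpace 𝕜 X] (N : ℕ) : Seminorm 𝕜 (SymPow 𝕜 X N) :=
  Seminorm.ofSMulLE (symNorm 𝕜 N)
    (le_antisymm (symNorm_le _ _ fun φ _ => by simp) (symNorm_nonneg _))
    (fun u w => symNorm_le _ _ fun φ hφ => by
      rw [map_add]
      exact (norm_add_le _ _).trans (add_le_add (le_symNorm u φ hφ) (le_symNorm w φ hφ)))
    (fun c u => symNorm_le _ _ fun φ hφ => by
      rw [map_smul, norm_smul]
      exact mul_le_mul_of_nonneg_left (le_symNorm u φ hφ) (norm_nonneg _))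

/-- `SymPow` carries the symmetric injective norm. -/
noncomputable instance : SeminormedAddCommGroup (SymPow 𝕜 X N) :=
  (symSeminorm 𝕜 X N).toAddGroupSeminorm.toSeminormedAddCommGroup

lemma norm_def (u : SymPow 𝕜 X N) : ‖u‖ = symNorm 𝕜 N u := rfl

noncomputable instance : NormedSpace 𝕜 (SymPow 𝕜 X N) where
  norm_smul_le c u := le_of_eq ((symSeminorm 𝕜 X N).smul' c u)

end basic

/-- The `N`-fold symmetric injective tensor power: the completion of the symmetric tensor power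
for the symmetric injective norm. -/
abbrev SymInj (𝕜 : Type u) [RCLike 𝕜] (X : Type v) [NormedAddCommGroup X] [NormedSpace 𝕜 X]
    (N : ℕ) : Type (max u v) := UniformSpace.Completion (SymPow 𝕜 X N)

section proof

variable {𝕜 : Type u} [RCLike 𝕜] {X : Type v} [NormedAddCommGroup X] [NormedSpace 𝕜 X] {N : ℕ}

lemma exists_phase (a b : 𝕜) : ∃ θ : 𝕜, ‖θ‖ = 1 ∧ ‖θ * a + b‖ = ‖a‖ + ‖b‖ := by
  by_cases ha : a = 0
  · exact ⟨1, by simp, by simp [ha]⟩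
  by_cases hb : b = 0
  · exact ⟨1, by simp, by simp [hb]⟩
  have ha' : (‖a‖ : 𝕜) ≠ 0 := by simpa using ha
  have hb' : (‖b‖ : 𝕜) ≠ 0 := by simpa using hb
  have hna : ‖a‖ ≠ 0 := by simpa using ha
  have hnb : ‖b‖ ≠ 0 := by simpa using hb
  refine ⟨(b / (‖b‖ : 𝕜)) * ((‖a‖ : 𝕜) / a), ?_, ?_⟩
  · simp only [norm_mul, norm_div, RCLike.norm_ofReal, abs_norm]
    field_simp
  · have : (b / (‖b‖ : 𝕜)) * ((‖a‖ : 𝕜) / a) * a + b
        = (b / (‖b‖ : 𝕜)) * (((‖a‖ + ‖b‖ : ℝ)) : 𝕜) := by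
      push_cast
      field_simp
    rw [this, norm_mul, norm_div, RCLike.norm_ofReal, RCLike.norm_ofReal, abs_norm,
      abs_of_nonneg (by positivity)]
    field_simp

/-- In an almost square space there is, for each finite-dimensional subspace `F`, a norm-one
vector `y` almost `ℓ_∞`-orthogonal to `F`, in its dual form. -/
lemma exists_orth (hX : IsASQ X) (F : Submodule 𝕜 X) [FiniteDimensional 𝕜 F] (ε : ℝ)
    (hε : 0 < ε) : ∃ y : X, ‖y‖ = 1 ∧ ∀ φ : X →L[𝕜] 𝕜, ‖φ‖ ≤ 1 → ∀ x ∈ F, ‖x‖ ≤ 1 →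
      ‖φ x‖ + ‖φ y‖ ≤ 1 + ε := by
  have : ProperSpace F := FiniteDimensional.proper 𝕜 F
  have hcomp : IsCompact (Subtype.val '' Metric.sphere (0 : F) 1 : Set X) :=
    (isCompact_sphere (0 : F) 1).image continuous_subtype_val
  obtain ⟨t, hts, htf, hcov⟩ := hcomp.finite_cover_balls (half_pos hε)
  obtain ⟨y, hy1, hy⟩ := hX htf.toFinset (fun x hx => by
    obtain ⟨z, hz, rfl⟩ := hts (htf.mem_toFinset.mp hx)
    have : ‖z‖ = 1 := by simpa using hz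
    exact this) (ε / 2) (half_pos hε)
  refine ⟨y, hy1, fun φ hφ x hx hx1 => ?_⟩
  have hle : ∀ z : X, ‖φ z‖ ≤ ‖z‖ := fun z => by
    calc ‖φ z‖ ≤ ‖φ‖ * ‖z‖ := φ.le_opNorm z
      _ ≤ 1 * ‖z‖ := mul_le_mul_of_nonneg_right hφ (norm_nonneg _)
      _ = ‖z‖ := one_mul _
  by_cases hx0 : x = 0
  · have := hle y
    rw [hx0, map_zero, norm_zero]
    linarith
  have hnx : 0 < ‖x‖ := norm_pos_iff.mpr hx0
  set x' : X := ((‖x‖⁻¹ : ℝ) : 𝕜) • x with hx'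
  have hx'F : x' ∈ F := F.smul_mem _ hx
  have hx'1 : ‖x'‖ = 1 := by
    rw [hx', norm_smul, RCLike.norm_ofReal, abs_of_pos (inv_pos.mpr hnx)]
    field_simp
  have hφx : ‖φ x‖ ≤ ‖φ x'‖ := by
    rw [hx', map_smul, norm_smul, RCLike.norm_ofReal, abs_of_pos (inv_pos.mpr hnx)]
    have h1 : 1 ≤ ‖x‖⁻¹ := (one_le_inv₀ hnx).mpr hx1
    have := norm_nonneg (φ x)
    nlinarith
  obtain ⟨θ, hθ, hθ2⟩ := exists_phase (φ x') (φ y)
  have hmem : θ • x' ∈ (Subtype.val '' Metric.sphere (0 : F) 1 : Set X) := by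
    refine ⟨⟨θ • x', F.smul_mem _ hx'F⟩, ?_, rfl⟩
    simp only [mem_sphere_iff_norm, sub_zero]
    show ‖θ • x'‖ = 1
    rw [norm_smul, hθ, hx'1, one_mul]
  obtain ⟨z, hz, hzb⟩ := Set.mem_iUnion₂.mp (hcov hmem)
  rw [Metric.mem_ball, dist_eq_norm] at hzb
  have h2 := hy z (htf.mem_toFinset.mpr hz)
  have h3 : ‖φ x'‖ + ‖φ y‖ ≤ ‖θ • x' + y‖ := by
    have := hle (θ • x' + y)
    rw [map_add, map_smul, smul_eq_mul, hθ2] at this
    exact this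
  have h4 : ‖θ • x' + y‖ ≤ ‖θ • x' - z‖ + ‖z + y‖ := by
    have : θ • x' + y = (θ • x' - z) + (z + y) := by abel
    rw [this]
    exact norm_add_le _ _
  linarith

/-- Each symmetric tensor lives on a finite-dimensional subspace. -/
lemma exists_support (u : SymPow 𝕜 X N) : ∃ F : Submodule 𝕜 X, FiniteDimensional 𝕜 F ∧
    ∀ φ ψ : X →L[𝕜] 𝕜, (∀ x ∈ F, φ x = ψ x) → symEval 𝕜 N φ u = symEval 𝕜 N ψ u := by
  refine induction_pure (p := fun u => ∃ F : Submodule 𝕜 X, FiniteDimensional 𝕜 F ∧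
    ∀ φ ψ : X →L[𝕜] 𝕜, (∀ x ∈ F, φ x = ψ x) → symEval 𝕜 N φ u = symEval 𝕜 N ψ u) ?_ ?_ ?_ ?_ u
  · intro x
    refine ⟨𝕜 ∙ x, inferInstance, fun φ ψ h => ?_⟩
    rw [symEval_pure, symEval_pure, h x (Submodule.mem_span_singleton_self x)]
  · exact ⟨⊥, inferInstance, fun φ ψ _ => by simp⟩
  · rintro a b ⟨F, hF, hFa⟩ ⟨G, hG, hGb⟩
    have := hF
    have := hG
    refine ⟨F ⊔ G, inferInstance, fun φ ψ h => ?_⟩
    rw [map_add, map_add, hFa φ ψ fun x hx => h x (Submodule.mem_sup_left hx),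
      hGb φ ψ fun x hx => h x (Submodule.mem_sup_right hx)]
  · rintro c a ⟨F, hF, hFa⟩
    exact ⟨F, hF, fun φ ψ h => by rw [map_smul, map_smul, hFa φ ψ h]⟩

lemma symEval_smul (c : 𝕜) (φ : X →L[𝕜] 𝕜) (u : SymPow 𝕜 X N) :
    symEval 𝕜 N (c • φ) u = c ^ N * symEval 𝕜 N φ u := by
  refine induction_pure (p := fun u => symEval 𝕜 N (c • φ) u = c ^ N * symEval 𝕜 N φ u)
    ?_ ?_ ?_ ?_ u
  · intro x
    rw [symEval_pure, symEval_pure, ← mul_pow]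
    rfl
  · simp
  · intro a b ha hb
    rw [map_add, map_add, ha, hb, mul_add]
  · intro d a ha
    rw [map_smul, map_smul, ha, smul_eq_mul, smul_eq_mul]
    ring

lemma symEval_le (ψ : X →L[𝕜] 𝕜) (u : SymPow 𝕜 X N) :
    ‖symEval 𝕜 N ψ u‖ ≤ ‖ψ‖ ^ N * ‖u‖ := by
  obtain ⟨ψ', hψ', hψ⟩ : ∃ ψ' : X →L[𝕜] 𝕜, ‖ψ'‖ ≤ 1 ∧ ψ = ((‖ψ‖ : ℝ) : 𝕜) • ψ' := by
    by_cases h0 : ψ = 0
    · exact ⟨0, by simp, by ext x; simp [h0]⟩
    · have hn : 0 < ‖ψ‖ := norm_pos_iff.mpr h0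
      refine ⟨((‖ψ‖⁻¹ : ℝ) : 𝕜) • ψ, ?_, ?_⟩
      · rw [norm_smul, RCLike.norm_ofReal, abs_of_pos (inv_pos.mpr hn)]
        field_simp
        exact le_refl _
      · rw [smul_smul, ← RCLike.ofReal_mul, mul_inv_cancel₀ hn.ne']
        simp
  have h1 : symEval 𝕜 N ψ u = ((‖ψ‖ : ℝ) : 𝕜) ^ N * symEval 𝕜 N ψ' u := by
    conv_lhs => rw [hψ]
    exact symEval_smul _ _ _
  rw [h1, norm_mul, norm_pow, RCLike.norm_ofReal, abs_norm]
  exact mul_le_mul_of_nonneg_left (le_symNorm u ψ' hψ') (by positivity)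

lemma norm_pure (x : X) : ‖pure 𝕜 N x‖ = ‖x‖ ^ N := by
  rw [norm_def]
  apply le_antisymm
  · refine symNorm_le _ _ fun φ hφ => ?_
    rw [symEval_pure, norm_pow]
    refine pow_le_pow_left₀ (norm_nonneg _) ?_ N
    calc ‖φ x‖ ≤ ‖φ‖ * ‖x‖ := φ.le_opNorm x
      _ ≤ 1 * ‖x‖ := mul_le_mul_of_nonneg_right hφ (norm_nonneg _)
      _ = ‖x‖ := one_mul _
  · obtain ⟨φ, hφ, hφx⟩ := exists_dual_vector'' 𝕜 x
    have := le_symNorm (pure 𝕜 N x) φ hφ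
    rw [symEval_pure, hφx, norm_pow, RCLike.norm_ofReal, abs_norm] at this
    exact this

lemma key_estimate (hN : N ≠ 0) (u : SymPow 𝕜 X N) (F : Submodule 𝕜 X)
    (hF : ∀ φ ψ : X →L[𝕜] 𝕜, (∀ x ∈ F, φ x = ψ x) → symEval 𝕜 N φ u = symEval 𝕜 N ψ u)
    (y : X) (ε : ℝ) (hε : 0 < ε) (hy : ∀ φ : X →L[𝕜] 𝕜, ‖φ‖ ≤ 1 → ∀ x ∈ F, ‖x‖ ≤ 1 →
      ‖φ x‖ + ‖φ y‖ ≤ 1 + ε) (δ : ℝ) (hδ : 0 ≤ δ) (hu : ‖u‖ ≤ 1 + δ) :
    ‖u + pure 𝕜 N y‖ ≤ (1 + δ) * (1 + ε) ^ N := by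
  rw [norm_def]
  refine symNorm_le _ _ fun φ hφ => ?_
  obtain ⟨ψ, hψφ, hψ⟩ := exists_extension_norm_eq F (φ.comp F.subtypeL)
  have h1 : symEval 𝕜 N φ u = symEval 𝕜 N ψ u :=
    hF φ ψ fun x hx => (hψφ ⟨x, hx⟩).symm
  have h0 : 0 ≤ 1 + ε - ‖φ y‖ := by
    have := hy φ hφ 0 F.zero_mem (by simp)
    rw [map_zero, norm_zero] at this
    linarith
  have h2 : ‖ψ‖ ≤ 1 + ε - ‖φ y‖ := by
    rw [hψ]
    refine ContinuousLinearMap.opNorm_le_bound _ h0 fun x => ?_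
    show ‖φ (x : X)‖ ≤ (1 + ε - ‖φ y‖) * ‖x‖
    by_cases hx0 : x = 0
    · simp [hx0]
    have hnx : 0 < ‖(x : X)‖ := by
      rw [norm_pos_iff]
      simpa using hx0
    have h3 := hy φ hφ (((‖(x : X)‖⁻¹ : ℝ) : 𝕜) • (x : X)) (F.smul_mem _ x.2) (by
      rw [norm_smul, RCLike.norm_ofReal, abs_of_pos (inv_pos.mpr hnx)]
      field_simp
      exact le_refl _)
    rw [map_smul, norm_smul, RCLike.norm_ofReal, abs_of_pos (inv_pos.mpr hnx)] at h3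
    have h4 : ‖(x : X)‖⁻¹ * ‖φ (x : X)‖ ≤ 1 + ε - ‖φ y‖ := by linarith
    rw [inv_mul_le_iff₀ hnx] at h4
    rw [mul_comm]
    exact h4
  have h5 : ‖symEval 𝕜 N φ (u + pure 𝕜 N y)‖ ≤ ‖ψ‖ ^ N * (1 + δ) + ‖φ y‖ ^ N := by
    rw [map_add, symEval_pure, h1]
    refine (norm_add_le _ _).trans ?_
    rw [norm_pow]
    have h6 := (symEval_le ψ u).trans (mul_le_mul_of_nonneg_left hu (by positivity))
    linarith
  have h7 : ‖ψ‖ ^ N + ‖φ y‖ ^ N ≤ (1 + ε) ^ N := by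
    refine (pow_add_pow_le (norm_nonneg _) (norm_nonneg _) hN).trans ?_
    exact pow_le_pow_left₀ (by positivity) (by linarith) N
  have h8 : 0 ≤ δ * ‖φ y‖ ^ N := by positivity
  calc ‖symEval 𝕜 N φ (u + pure 𝕜 N y)‖ ≤ ‖ψ‖ ^ N * (1 + δ) + ‖φ y‖ ^ N := h5
    _ ≤ (1 + δ) * (‖ψ‖ ^ N + ‖φ y‖ ^ N) := by nlinarith
    _ ≤ (1 + δ) * (1 + ε) ^ N := mul_le_mul_of_nonneg_left h7 (by linarith)

lemma exists_small (N : ℕ) (ε : ℝ) (hε : 0 < ε) : ∃ η : ℝ, 0 < η ∧ (1 + η) ^ N ≤ 1 + ε := by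
  have hc : ContinuousAt (fun η : ℝ => (1 + η) ^ N) 0 := by fun_prop
  obtain ⟨δ, hδ, h⟩ := Metric.continuousAt_iff.mp hc ε hε
  refine ⟨δ / 2, by linarith, ?_⟩
  have h1 := h (x := δ / 2) (by
    rw [Real.dist_eq, sub_zero, abs_of_pos (by linarith)]
    linarith)
  rw [Real.dist_eq, add_zero, one_pow] at h1
  have := (abs_lt.mp h1).2
  linarith

end proof

/-- The symmetric injective tensor powers of an almost square space are almost square. -/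
theorem result {𝕜 : Type u} [RCLike 𝕜] {X : Type v} [NormedAddCommGroup X] [NormedSpace 𝕜 X]
    (hX : IsASQ X) (N : ℕ) (hN : N ≠ 0) : IsASQ (SymInj 𝕜 X N) := by
  intro s hs ε hε
  obtain ⟨η, hη, hηN⟩ := exists_small N (ε / 4) (by linarith)
  set δ : ℝ := ε / (4 + ε) with hδdef
  have hδ : 0 < δ := by positivity
  choose w hw using fun z : SymInj 𝕜 X N =>
    UniformSpace.Completion.denseRange_coe.exists_dist_lt z hδ
  choose G hGfin hG using fun u : SymPow 𝕜 X N => exists_support u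
  set F : Submodule 𝕜 X := s.sup (fun z => G (w z)) with hF
  have : ∀ z, FiniteDimensional 𝕜 (G (w z)) := fun z => hGfin _
  have : FiniteDimensional 𝕜 F := Submodule.finiteDimensional_finset_sup s _
  obtain ⟨y, hy1, hy⟩ := exists_orth hX F η hη
  refine ⟨((pure 𝕜 N y : SymPow 𝕜 X N) : SymInj 𝕜 X N), ?_, fun z hz => ?_⟩
  · rw [UniformSpace.Completion.norm_coe, norm_pure, hy1, one_pow]
  · have hdist := hw z
    rw [dist_eq_norm] at hdist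
    have hwz : ‖w z‖ ≤ 1 + δ := by
      rw [← UniformSpace.Completion.norm_coe (E := SymPow 𝕜 X N) (w z)]
      have h1 : ((w z : SymPow 𝕜 X N) : SymInj 𝕜 X N) = z - (z - (w z : SymInj 𝕜 X N)) := by abel
      rw [h1]
      refine (norm_sub_le _ _).trans ?_
      rw [hs z hz]
      linarith
    have hle : G (w z) ≤ F := Finset.le_sup (f := fun z => G (w z)) hz
    have hkey := key_estimate hN (w z) F
      (fun φ ψ h => hG (w z) φ ψ fun x hx => h x (hle hx)) y η hη hy δ hδ.le hwz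
    have h2 : z + ((pure 𝕜 N y : SymPow 𝕜 X N) : SymInj 𝕜 X N)
        = (z - (w z : SymInj 𝕜 X N)) + ((w z + pure 𝕜 N y : SymPow 𝕜 X N) : SymInj 𝕜 X N) := by
      rw [UniformSpace.Completion.coe_add]
      abel
    rw [h2]
    refine (norm_add_le _ _).trans ?_
    rw [UniformSpace.Completion.norm_coe]
    have h3 : (1 + δ) * (1 + η) ^ N ≤ (1 + δ) * (1 + ε / 4) :=
      mul_le_mul_of_nonneg_left hηN (by linarith)
    have h4 : δ * (4 + ε) = ε := by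
      rw [hδdef]
      field_simp
    nlinarith

end Pool.Agent.Results.MP_25d2c4_an.SymInjectiveASQ
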